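import Pool.Agent.H948.HS.PSub
import Pool.Agent.H948.HS.PFin
import Pool.Agent.H948.HS.PBlock
import Pool.Agent.H948.HS.PRot
import Pool.Agent.H948.HS.PSig
import Pool.Agent.H948.HS.PLin
import Pool.Agent.H948.HS.PNull
import Pool.Agent.H948.HS.PLam
import Pool.Agent.H948.HS.PBrl
import Pool.Agent.H948.HS.PHwrec
import Pool.Agent.H948.HS.PPack
import Pool.Agent.H948.HS.PHw1
import Pool.Agent.H948.HS.PHw
import Pool.Agent.H948.HS.PVstar
import Pool.Agent.H948.HS.PStr
import Pool.Agent.H948.HS.PCone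
import Pool.Agent.H948.HS.PTyp
import Pool.Agent.H948.HS.PPat
import Pool.Agent.H948.HS.PPb
import Pool.Agent.H948.HS.PUni
import Pool.Agent.H948.HS.PLow
import Pool.Agent.H948.HS.PUp
import Pool.Agent.H948.HS.PHg
import Pool.Agent.H948.HS.PHm
import Pool.Agent.H948.HS.PHpt
import Pool.Agent.H948.HS.PHlim
import Pool.Agent.H948.HS.PHup
import Pool.Agent.H948.HS.PHlo
import Pool.Agent.H948.HS.PPos

/-!
# The end-to-end distance of the hyperbolic self-avoiding walk at step length `1 / n` (MP_047546_pr)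

In every dimension `d = m + 1 ≥ 2` and for every `c ∈ (0, 1)` the mean end-to-end distance of the
`(n, 1 / n)`-SAW on the hyperbolic space of dimension `d` tends to zero.
-/

namespace Pool.Agent.Results.MP_047546_pr.HyperbolicSAW

open MeasureTheory ProbabilityTheory Set Filter
open scoped Topology
open Pool.Agent.H948.HS

theorem result (m : ℕ) (hm : 1 ≤ m) (c : ℝ) (hc0 : 0 < c) (hc1 : c < 1) :
    (∀ n : ℕ, 1 ≤ n → 0 < (Pm m).real (Av (1 / (n : ℝ)) c n)) ∧
    Tendsto (fun n : ℕ => meanDist m (1 / (n : ℝ)) c n) atTop (𝓝 0) := by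
  have block := Pool.Agent.H948.HS.Blk.s_block
  have rot := Pool.Agent.H331.HS.s_rot
  have sg := Pool.Agent.H52.HS.s_sig
  have lin := Pool.Agent.H948.HS.s_lin
  have null := Pool.Agent.H231.HS.s_null block sg
  have lam := Pool.Agent.H921.HS.s_lam block sg
  have brl := Pool.Agent.H747.HS.s_brl block rot sg lin lam
  have hwrec := Pool.Agent.H947.HS.s_hwrec block
  have pack := Pool.Agent.H176.HS.s_pack
  have hw1 := Pool.Agent.H415.HS.s_hw1 lam brl hwrec pack
  have hw := Pool.Agent.H695.HS.s_hw lam brl hw1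
  have vstar := Pool.Agent.H357.HS.s_vstar block rot lin lam
  have str := Pool.Agent.H229.HS.s_str block lam
  have cone := Pool.Agent.H549.HS.s_cone
  have typ := Pool.Agent.H307.HS.s_typ cone
  have pat := Pool.Agent.H120.HS.s_pat
  have pb := Pool.Agent.H322.HS.PB.s_pb block lam
  have uni := Pool.Agent.H967.HSU.s_uni pb
  have low := Pool.Agent.H746.HS.s_low block lam brl str typ pat uni
  have up := Pool.Agent.H404.HS.s_up block rot sg lin
  have hg := Pool.Agent.H878.HS.HG.s_hg
  have hmm := Pool.Agent.H282.HS.HM.s_hm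
  have hpt := Pool.Agent.H23.HS.s_hpt
  have hlim := Pool.Agent.H763.HS.s_hlim null hmm hpt
  have hup := Pool.Agent.H356.HS.s_hup block hg hmm
  have hlo := Pool.Agent.H97.HS.s_hlo block hg hmm
  have pos := Pool.Agent.H396.HS.s_pos block hg hmm sg
  have sub := s_sub vstar low up lin brl lam
  have hlo1 := s_hlo1 hlim brl
  exact fin_main hg hmm sub lam hw hlim hup hlo hlo1 pos m c hm hc0 hc1

end Pool.Agent.Results.MP_047546_pr.HyperbolicSAW
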